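import Mathlib
import Pool.Graph.R_seed8.W684.FM.Ambient
import Pool.Graph.R_seed8.Helper292.ForceCH
import Pool.Graph.R_pool_sql_team_seeded_1e53cb71.Results.MP_2df815_an.Independence

/-!
# MP_2df815_an: semi-Eberlein dual balls under all renormings, independence by forcing

* Some notion of forcing preserves all cardinals and forces Martin's axiom for `ℵ₁` dense sets (the
  forcing language is the one of `Pool.Agent.Helper669.Forcing`; `MartinHolds P Om1` is the set of
  the conditions which force the sentence `MartinFor Om1`, `Om1` the ordinal `ω₁`).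
* Some notion of forcing preserves `ω₁` and forces CH (forcing language of
  `Pool.Agent.Helper292.ForceCH`; `CHHolds P` is the set of the conditions which force the sentence
  `CHSentence`).
* These sentences are equivalent to the usual forms `MA`, `CH`.
* `MA` gives a negative answer to Q1, with a Banach space of density at most `ℵ₁`.
* `CH` gives a positive answer for all Banach spaces of density `< ℵ_ω`.
* One and the same space of density at most `ℵ₁`, which is in ZFC not a subspace of a WCG space,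
  has all its renormings with a semi-Eberlein dual ball under `MA`, but not under `CH`.
-/

set_option autoImplicit false

namespace Pool.Agent.Results.MP_2df815_an.SmallDensityIndependent

open Cardinal Filter Topology Set Pool.Agent.W684 Pool.Agent.W684.FM Pool.Agent.Helper669.Forcing
open Pool.Agent.Helper292.ForceCH (Om)

/-- A topological space is semi-Eberlein if it embeds homeomorphically into a cube `[-1,1]^Γ` so
that the points mapped into `c_0(Γ)` are dense. -/
def IsSemiEberlein (K : Type) [TopologicalSpace K] : Prop :=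
  ∃ (Γ : Type) (h : K → Γ → ℝ), IsEmbedding h ∧ (∀ s γ, h s γ ∈ Set.Icc (-1 : ℝ) 1) ∧
    Dense {s : K | Tendsto (h s) cofinite (𝓝 0)}

/-- The closed unit ball of the dual norm of the (semi)norm `N`, in the weak* topology. -/
def dualBall {X : Type} [NormedAddCommGroup X] [NormedSpace ℝ X] (N : Seminorm ℝ X) :
    Set (WeakDual ℝ X) :=
  {f | ∀ x : X, |f x| ≤ N x}

/-- `N` is an equivalent norm on `X`. -/
def IsEquivalentNorm {X : Type} [NormedAddCommGroup X] [NormedSpace ℝ X] (N : Seminorm ℝ X) :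
    Prop :=
  ∃ c C : ℝ, 0 < c ∧ 0 < C ∧ ∀ x : X, c * ‖x‖ ≤ N x ∧ N x ≤ C * ‖x‖

/-- For every equivalent norm the weak* dual ball is semi-Eberlein. -/
def AllRenormings (X : Type) [NormedAddCommGroup X] [NormedSpace ℝ X] : Prop :=
  ∀ N : Seminorm ℝ X, IsEquivalentNorm N → IsSemiEberlein (dualBall N)

/-- `X` is isomorphic to a subspace of a weakly compactly generated Banach space. -/
def IsSubspaceOfWCG (X : Type) [NormedAddCommGroup X] [NormedSpace ℝ X] : Prop :=
  ∃ (Y : Type) (_ : NormedAddCommGroup Y) (_ : NormedSpace ℝ Y), CompleteSpace Y ∧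
    (∃ K : Set Y, IsCompact (toWeakSpace ℝ Y '' K) ∧ Dense (Submodule.span ℝ K : Set Y)) ∧
      ∃ (T : X →L[ℝ] Y) (c : ℝ), 0 < c ∧ ∀ x : X, c * ‖x‖ ≤ ‖T x‖

/-- The answer to Q1 is yes for the Banach spaces with a dense subset of cardinality less than
`κ`. -/
def PositiveBelow (κ : Cardinal.{0}) : Prop :=
  ∀ (X : Type) [NormedAddCommGroup X] [NormedSpace ℝ X] [CompleteSpace X],
    (∃ s : Set X, Dense s ∧ #s < κ) → AllRenormings X → IsSubspaceOfWCG X

/-- The continuum hypothesis. -/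
def CH : Prop := (2 : Cardinal.{0}) ^ ℵ₀ = ℵ₁

/-- Martin's axiom for `ℵ₁` dense sets: a nonempty preordered set with no uncountable antichain has,
for any family of at most `ℵ₁` dense subsets, a filter meeting all of them. -/
def MartinAlephOne : Prop :=
  ∀ (P : Type) (_ : Preorder P), Nonempty P →
    (∀ A : Set P, (∀ p ∈ A, ∀ q ∈ A, p ≠ q → ¬ ∃ r, r ≤ p ∧ r ≤ q) → A.Countable) →
    ∀ 𝒟 : Set (Set P), Cardinal.mk 𝒟 ≤ Cardinal.aleph 1 →
      (∀ D ∈ 𝒟, ∀ p, ∃ q ∈ D, q ≤ p) →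
      ∃ G : Set P, G.Nonempty ∧ (∀ p ∈ G, ∀ q, p ≤ q → q ∈ G) ∧
        (∀ p ∈ G, ∀ q ∈ G, ∃ r ∈ G, r ≤ p ∧ r ≤ q) ∧ ∀ D ∈ 𝒟, (D ∩ G).Nonempty

/-- The sentence which `CHHolds P` says is forced, evaluated in the universe: some family of
subsets of `ℕ` indexed by `ω₁` contains every subset of `ℕ`. -/
def CHSentence : Prop :=
  ∃ E : Om → ℕ → Prop, ∀ x : ℕ → Prop, ∃ a : Om, ∀ n : ℕ, x n ↔ E a n

theorem martin_iff : MartinFor Om1 ↔ MartinAlephOne := by
  have h0 : #Om1 = ℵ₁ := mk_ord_toType _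
  rw [martinFor_iff, h0]
  constructor
  · intro h P _ hn hc 𝒟 hD hd
    obtain ⟨G, h1, h2, h3, h4⟩ := h P (fun A hA => hc A hA) 𝒟 hD hd
    exact ⟨G, h1, h2, h3, fun D hD => by rw [Set.inter_comm]; exact h4 D hD⟩
  · intro h P _ _ hc 𝒟 hD hd
    obtain ⟨G, h1, h2, h3, h4⟩ := h P inferInstance inferInstance (fun A hA => hc A hA) 𝒟 hD hd
    exact ⟨G, h1, h2, h3, fun D hD => by rw [Set.inter_comm]; exact h4 D hD⟩

theorem ma_of_martin (h : MartinAlephOne) : Independence.MA := by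
  intro P _ _ hc ι D hι hD
  obtain ⟨G, h1, h2, h3, h4⟩ := h P inferInstance inferInstance hc (range D)
    (mk_range_le.trans hι) (by
      rintro _ ⟨i, rfl⟩ p
      obtain ⟨q, hq, hq'⟩ := hD i p
      exact ⟨q, hq', hq⟩)
  exact ⟨G, h1, h3, h2, fun i => by
    obtain ⟨p, hp, hp'⟩ := h4 (D i) ⟨i, rfl⟩
    exact ⟨p, hp', hp⟩⟩

theorem ch_iff : CHSentence ↔ CH := by
  have h0 : #Om = ℵ₁ := mk_ord_toType _
  have h1 : #(Set ℕ) = 2 ^ ℵ₀ := by rw [mk_set, mk_nat]
  constructor
  · rintro ⟨E, hE⟩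
    refine le_antisymm ?_ ?_
    · rw [← h1, ← h0]
      refine mk_le_of_surjective (f := fun a : Om => {n | E a n}) fun x => ?_
      obtain ⟨a, ha⟩ := hE (fun n => n ∈ x)
      exact ⟨a, Set.ext fun n => (ha n).symm⟩
    · rw [← succ_aleph0]
      exact Order.succ_le_of_lt (cantor _)
  · intro h
    have h2 : #(Set ℕ) = #Om := by rw [h1, h0]; exact h
    obtain ⟨e⟩ := Cardinal.eq.1 h2
    refine ⟨fun a n => n ∈ e.symm a, fun x => ⟨e {n | x n}, fun n => ?_⟩⟩
    simp

/-- One half of Hausdorff's formula. -/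
theorem succ_power_aleph0 {c : Cardinal.{0}} (hc : ℵ₀ ≤ c) :
    (Order.succ c) ^ ℵ₀ ≤ Order.succ c * c ^ ℵ₀ := by
  classical
  let A : Type := (Order.succ c).ord.ToType
  have hA : #A = Order.succ c := mk_ord_toType _
  have h1 : ∀ x : A, #(Iic x) ≤ c := by
    intro x
    rw [← Iio_insert]
    refine mk_insert_le.trans ?_
    have h2 : #(Iio x) < Order.succ c := mk_Iio_toType_ord_lt x
    calc #(Iio x) + 1 ≤ c + 1 := by gcongr; exact Order.lt_succ_iff.1 h2
      _ = c := add_one_eq hc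
  have h3 : ∀ f : ℕ → A, ∃ a : A, ∀ n, f n ≤ a := by
    intro f
    by_contra h
    push Not at h
    have h4 : (univ : Set A) ⊆ ⋃ n, Iic (f n) := fun a _ => by
      obtain ⟨n, hn⟩ := h a
      exact mem_iUnion.2 ⟨n, hn.le⟩
    have h5 : #A ≤ c := by
      calc #A = #(univ : Set A) := mk_univ.symm
        _ ≤ #(⋃ n, Iic (f n)) := mk_le_mk_of_subset h4
        _ ≤ #ℕ * ⨆ n, #(Iic (f n)) := mk_iUnion_le _
        _ ≤ c * c := by
          gcongr
          · rw [mk_nat]; exact hc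
          · exact ciSup_le' fun n => h1 _
        _ = c := mul_eq_self hc
    exact absurd h5 (not_le.2 ((Order.lt_succ c).trans_eq hA.symm))
  choose b hb using h3
  have h6 : ∀ x : A, ∃ e : Iic x → c.out, Function.Injective e := by
    intro x
    have h7 : #(Iic x) ≤ #c.out := (h1 x).trans_eq (mk_out c).symm
    obtain ⟨e⟩ := (le_def _ _).1 h7
    exact ⟨e, e.injective⟩
  choose e he using h6
  have h8 : #(ℕ → A) ≤ #(A × (ℕ → c.out)) := by
    refine mk_le_of_injective (f := fun f : ℕ → A => (b f, fun n => e (b f) ⟨f n, hb f n⟩)) ?_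
    intro f g hfg
    simp only [Prod.mk.injEq] at hfg
    obtain ⟨h9, h10⟩ := hfg
    have key : ∀ a : A, ∀ ha : a = b f, ∀ hf : ∀ n, f n ≤ a, ∀ hg : ∀ n, g n ≤ a,
        (∀ n, e a ⟨f n, hf n⟩ = e a ⟨g n, hg n⟩) → f = g := by
      intro a _ hf hg h
      funext n
      have := he a (h n)
      exact congrArg Subtype.val this
    refine key (b f) rfl (hb f) (fun n => (hb g n).trans_eq h9.symm) fun n => ?_
    have h11 : e (b f) ⟨f n, hb f n⟩ = e (b g) ⟨g n, hb g n⟩ := congrFun h10 n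
    have h12 : ∀ a : A, ∀ ha : a = b g, ∀ hg : g n ≤ a,
        e (b g) ⟨g n, hb g n⟩ = e a ⟨g n, hg⟩ := by
      rintro _ rfl _
      rfl
    exact h11.trans (h12 (b f) h9 _)
  calc (Order.succ c) ^ ℵ₀ = #(ℕ → A) := by rw [← power_def, mk_nat, hA]
    _ ≤ #(A × (ℕ → c.out)) := h8
    _ = Order.succ c * c ^ ℵ₀ := by rw [mk_prod, lift_id, lift_id, hA, ← power_def, mk_nat, mk_out]

theorem aleph_nat_power (h : CH) (n : ℕ) : (ℵ_ (n : Ordinal.{0})) ^ ℵ₀ ≤ max (ℵ_ n) ℵ₁ := by
  induction n with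
  | zero =>
    refine le_trans ?_ (le_max_right _ _)
    rw [Nat.cast_zero, aleph_zero, power_self_eq le_rfl]
    exact h.le
  | succ n ih =>
    have h1 : ℵ_ ((n + 1 : ℕ) : Ordinal.{0}) = Order.succ (ℵ_ (n : Ordinal.{0})) := by
      rw [succ_aleph, Nat.cast_succ]
    rw [h1]
    refine (succ_power_aleph0 (aleph0_le_aleph _)).trans ?_
    refine (mul_le_max _ _).trans ?_
    refine max_le (max_le (le_max_left _ _) (ih.trans ?_)) ?_
    · exact max_le_max (Order.le_succ _) le_rfl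
    · exact ((aleph0_le_aleph _).trans (Order.le_succ _)).trans (le_max_left _ _)

theorem positive_of_ch (h : CH) : PositiveBelow (ℵ_ Ordinal.omega0) := by
  intro X _ _ _ hs hall
  apply OmegaClosedDensity.result X ?_ hall
  obtain ⟨s, hs1, hs2⟩ := hs
  set d := OmegaClosedDensity.dens X with hd
  have h0 : #s ∈ {c : Cardinal | ∃ s : Set X, Dense s ∧ #s = c} := ⟨s, hs1, rfl⟩
  have h1 : d < ℵ_ Ordinal.omega0 := lt_of_le_of_lt (csInf_le' h0) hs2
  have h2 : ∃ n : ℕ, d ≤ ℵ_ (n : Ordinal.{0}) := by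
    by_contra hn
    push Not at hn
    refine absurd h1 (not_lt.2 ?_)
    rw [aleph_limit Ordinal.isSuccLimit_omega0]
    refine ciSup_le' fun a => ?_
    obtain ⟨m, hm⟩ := Ordinal.lt_omega0.1 a.2
    rw [hm]
    exact (hn m).le
  by_cases h3 : d ≤ ℵ₀
  · exact Or.inl h3
  · right
    classical
    have h4 := Nat.find_spec h2
    have h5 : Nat.find h2 ≠ 0 := by
      intro h6
      rw [h6, Nat.cast_zero, aleph_zero] at h4
      exact h3 h4
    obtain ⟨m, hm⟩ := Nat.exists_eq_succ_of_ne_zero h5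
    have h6 : ¬ d ≤ ℵ_ (m : Ordinal.{0}) := Nat.find_min h2 (by rw [hm]; exact Nat.lt_succ_self m)
    have h7 : ℵ_ ((m + 1 : ℕ) : Ordinal.{0}) = Order.succ (ℵ_ (m : Ordinal.{0})) := by
      rw [succ_aleph, Nat.cast_succ]
    rw [hm, Nat.succ_eq_add_one, h7] at h4
    intro κ hκ
    have h8 : κ ≤ ℵ_ (m : Ordinal.{0}) := Order.lt_succ_iff.1 (hκ.trans_le h4)
    have h9 : Order.succ (ℵ_ (m : Ordinal.{0})) ≤ d := Order.succ_le_of_lt (not_le.1 h6)
    calc κ ^ ℵ₀ ≤ (ℵ_ (m : Ordinal.{0})) ^ ℵ₀ := power_le_power_right h8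
      _ ≤ max (ℵ_ m) ℵ₁ := aleph_nat_power h m
      _ ≤ Order.succ (ℵ_ (m : Ordinal.{0})) := by
        refine max_le (Order.le_succ _) ?_
        rw [← succ_aleph0]
        exact Order.succ_le_succ (aleph0_le_aleph _)
      _ ≤ d := h9

/-- **For the Banach spaces of density `ℵ₁`, and for those of density less than `ℵ_ω`, the
question is independent of ZFC, and the negative answer to Q1 is consistent.** -/
theorem result :
    (∃ (P : Type) (_ : Preorder P), Nonempty P ∧ ∀ p : P,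
      p ∈ CardinalsPreserved.{0, 0} P ∧ p ∈ OmegaOnePreserved P ∧ p ∈ MartinHolds P Om1) ∧
    (∃ (P : Type) (_ : Preorder P), Nonempty P ∧ ∀ p : P,
      p ∈ Pool.Agent.Helper292.ForceCH.OmegaOnePreserved P ∧
        p ∈ Pool.Agent.Helper292.ForceCH.CHHolds P) ∧
    (MartinFor Om1 ↔ MartinAlephOne) ∧ (CHSentence ↔ CH) ∧
    (MartinAlephOne → ¬ PositiveBelow (ℵ_ 2)) ∧
    (CH → PositiveBelow (ℵ_ Ordinal.omega0)) ∧
    ∃ (X : Type) (_ : NormedAddCommGroup X) (_ : NormedSpace ℝ X), CompleteSpace X ∧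
      (∃ s : Set X, Dense s ∧ #s ≤ ℵ₁) ∧ ¬ IsSubspaceOfWCG X ∧
        (CH → ¬ AllRenormings X) ∧ (MartinAlephOne → AllRenormings X) := by
  have : Infinite Om1 := by
    rw [Cardinal.infinite_iff, Cardinal.mk_ord_toType]
    exact Cardinal.aleph0_le_aleph _
  obtain ⟨X, i1, i2, i3, h1, h2, h3, h4⟩ := Independence.example_space
  refine ⟨exists_forcing Om1, ?_, martin_iff, ch_iff, ?_, positive_of_ch,
    X, i1, i2, i3, h1, h2, h3, fun h => h4 (ma_of_martin h)⟩
  · obtain ⟨P, i, hn, h⟩ := Pool.Agent.Helper292.ForceCH.exists_forcing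
    exact ⟨P, i, hn, fun p => ⟨(h p).1, (h p).2.2⟩⟩
  · intro h hp
    obtain ⟨s, hs, hs'⟩ := h1
    refine h2 (hp X ⟨s, hs, hs'.trans_lt ?_⟩ (h4 (ma_of_martin h)))
    exact aleph_lt_aleph.2 (by norm_num)

end Pool.Agent.Results.MP_2df815_an.SmallDensityIndependent
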